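import Pool.Agent.Helper2.XU.Ratio
import Pool.Agent.Helper8.XU.CoreU
import Pool.Agent.Helper83.XU.L1

/-!
# XU, L6: the bounds for one `g`, uniform in `q`
-/

set_option autoImplicit false

open Polynomial

namespace Pool.Agent.Helper86.XU

open Pool.Agent.Helper84.AA
open Pool.Agent.Helper86.XE

/-- `q ^ d₀ ≤ 1.003 * rr q`. -/
theorem exp_le_rr {d₀ : ℝ} (h1 : d₀ ≤ 1 / 1000) {q : ℕ} (hq : 16 ≤ q) :
    Real.exp (d₀ * Real.log q) ≤ 1003 / 1000 * rr q := by
  have hqR : (16 : ℝ) ≤ q := by exact_mod_cast hq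
  have hq0 : (0 : ℝ) < q := by linarith
  have hlog0 : 0 ≤ Real.log q := Real.log_nonneg (by linarith)
  -- `log (rr q) = (log q - log 16) / 4`
  have hrr0 : 0 < rr q := by linarith [one_le_rr hq]
  have hrr : Real.log (rr q) = (Real.log q - Real.log 16) / 4 := by
    have h2 : rr q ^ 4 = q / 16 := by
      have h3 := rr_sq q
      have h4 : rr q ^ 2 = √(q : ℝ) / 4 := by linarith
      calc rr q ^ 4 = (rr q ^ 2) ^ 2 := by ring
        _ = (√(q : ℝ)) ^ 2 / 16 := by rw [h4]; ring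
        _ = q / 16 := by rw [Real.sq_sqrt hq0.le]
    have h5 := congrArg Real.log h2
    rw [Real.log_pow, Real.log_div hq0.ne' (by norm_num)] at h5
    push_cast at h5
    linarith
  have hlog : Real.log 16 ≤ Real.log q := Real.log_le_log (by norm_num) hqR
  have h16 : Real.log 16 ≤ 2.8 := by
    have e1 : Real.log 16 = 4 * Real.log 2 := by
      rw [show (16 : ℝ) = 2 ^ 4 by norm_num, Real.log_pow]
      push_cast
      ring
    rw [e1]
    linarith [Real.log_two_lt_d9]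
  have h160 : 0 ≤ Real.log 16 := Real.log_nonneg (by norm_num)
  have h6 : d₀ * Real.log q ≤ 3 / 1000 - (3 / 1000) ^ 2 + Real.log (rr q) := by
    rw [hrr]
    have : d₀ * Real.log q ≤ 1 / 1000 * Real.log q := mul_le_mul_of_nonneg_right h1 hlog0
    nlinarith
  have h7 : 3 / 1000 - (3 / 1000) ^ 2 ≤ Real.log (1003 / 1000) := by
    have h8 := Real.one_sub_inv_le_log_of_pos (show (0 : ℝ) < 1003 / 1000 by norm_num)
    refine le_trans ?_ h8
    norm_num
  have h9 : d₀ * Real.log q ≤ Real.log (1003 / 1000 * rr q) := by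
    rw [Real.log_mul (by norm_num) hrr0.ne']
    linarith
  calc Real.exp (d₀ * Real.log q) ≤ Real.exp (Real.log (1003 / 1000 * rr q)) :=
        Real.exp_le_exp.2 h9
    _ = 1003 / 1000 * rr q := Real.exp_log (by positivity)

/-- L6 -/
theorem one_dimU {d₀ : ℝ} (h0 : 0 < d₀) (h1 : d₀ ≤ 1 / 1000) (G₀ : ℕ) :
    ∃ G : ℕ, 16 ≤ G ∧ ∀ q : ℕ, 16 ≤ q → OneBigU q (d₀ * Real.log q) G₀ → ∀ p : ℕ, p.Prime →
      ∀ g ≥ G, ∀ K : ℝ, 1 ≤ K → K ≤ (g : ℝ) ^ (9 / 10 : ℝ) →
      ∀ W : ℕ, g < W → (W : ℝ) ≤ (g : ℝ) ^ K →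
      (({h ∈ traceSet q g | ¬ (Irreducible h ∧
          BigW q W (Real.exp (d₀ * Real.log q * g)) h)}.ncard : ℕ) : ℝ) ≤
        4 * Real.exp (-(d₀ * Real.log q * g / K)) * (traceSet q g).ncard ∧
      ((traceSet q g).ncard : ℝ) ≤
        3 * (({h ∈ traceSet q g | ¬ (p : ℤ) ∣ h.coeff 0}.ncard : ℕ) : ℝ) ∧
      ((g : ℝ) + 1) * Real.exp (d₀ * Real.log q * g) * (preSet q g (g - 1)).ncard ≤
        Real.exp (-(d₀ * Real.log q * g)) * (traceSet q g).ncard := by
  obtain ⟨G1, hG1⟩ := ratio1U_of lowerU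
  obtain ⟨G2, hG2⟩ := ratio2U_of lowerU
  obtain ⟨G3, hG3⟩ := ratio3U_of lowerU
  have hlim := tendsto_self_mul_const_pow_of_lt_one (show (0 : ℝ) ≤ 98 / 100 by norm_num)
    (show (98 / 100 : ℝ) < 1 by norm_num)
  obtain ⟨G5, hG5⟩ := Filter.eventually_atTop.1 (hlim.eventually (gt_mem_nhds
    (show (0 : ℝ) < 1 / 2 by norm_num)))
  refine ⟨max (max (max G1 G2) (max G3 G₀)) (max G5 16), by simp,
    fun q hq hO p hp g hg K hK1 hK2 W hgW hWg => ?_⟩
  have g1 : G1 ≤ g := le_trans (by simp) hg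
  have g2 : G2 ≤ g := le_trans (by simp) hg
  have g3 : G3 ≤ g := le_trans (by simp) hg
  have g4 : G₀ ≤ g := le_trans (by simp) hg
  have g5 : G5 ≤ g := le_trans (by simp) hg
  have hg3 : 16 ≤ g := le_trans (by simp) hg
  have hgR : (16 : ℝ) ≤ g := by exact_mod_cast hg3
  have hg0 : (0 : ℝ) < g := by linarith
  have hqR : (16 : ℝ) ≤ q := by exact_mod_cast hq
  have hlog0 : 0 < Real.log q := Real.log_pos (by linarith)
  set δ : ℝ := d₀ * Real.log q with hδd
  have hδ0 : 0 < δ := mul_pos h0 hlog0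
  have hr1 := one_le_rr hq
  set r : ℝ := rr q with hrd
  have hr0 : 0 < r := by linarith
  have hE : Real.exp δ ≤ 1003 / 1000 * r := exp_le_rr h1 hq
  have hE0 := Real.exp_pos δ
  have hθ0 : (0 : ℝ) < (98 / 100 / r) ^ g := by positivity
  have hθle : (98 / 100 / r) ^ g ≤ (98 / 100 : ℝ) ^ g := by
    refine pow_le_pow_left₀ (by positivity) ?_ g
    exact div_le_self (by norm_num) hr1
  have hθ2 : (98 / 100 / r) ^ g ≤ 1 / 12 := by
    have h98 : (0 : ℝ) < (98 / 100 : ℝ) ^ g := by positivity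
    nlinarith [hG5 g g5]
  have hexpg : Real.exp (δ * g) = Real.exp δ ^ g := by
    rw [mul_comm, Real.exp_nat_mul]
  have hexpn : Real.exp (-(δ * g)) = (Real.exp δ ^ g)⁻¹ := by
    rw [Real.exp_neg, hexpg]
  have hKK : Real.exp (-(δ * g)) ≤ Real.exp (-(δ * g / K)) := by
    refine Real.exp_le_exp.2 (neg_le_neg ?_)
    exact div_le_self (by positivity) hK1
  have hθ1 : (98 / 100 / r) ^ g ≤ Real.exp (-(δ * g / K)) := by
    refine le_trans ?_ hKK
    rw [hexpn, le_inv_comm₀ hθ0 (by positivity), ← inv_pow]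
    refine pow_le_pow_left₀ hE0.le ?_ g
    rw [le_inv_comm₀ hE0 (by positivity)]
    rw [div_le_iff₀ hr0, ← div_eq_inv_mul, le_div_iff₀ hE0]
    nlinarith
  have hb : (1 : ℝ) ≤ (101 / 100 * r) ^ g := one_le_pow₀ (by nlinarith)
  obtain ⟨h2, h3⟩ := almost_coreU hq hp (by omega)
    (BigW q W (Real.exp (δ * g))) (η := Real.exp (-(δ * g / K)))
    (by positivity) hb hθ0.le (hG1 q hq g g1) (hG2 q hq g g2) (hG3 q hq g g3)
    (hO g g4 K hK1 hK2 W hgW hWg) hθ2
  have hN0 : (0 : ℝ) ≤ (traceSet q g).ncard := Nat.cast_nonneg _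
  refine ⟨?_, h3, ?_⟩
  · refine h2.trans (mul_le_mul_of_nonneg_right ?_ hN0)
    linarith
  · have h4 := hG1 q hq g g1
    have h5 : (0 : ℝ) < (101 / 100 * r) ^ g := by positivity
    have h6 : ((preSet q g (g - 1)).ncard : ℝ) ≤
        ((98 / 100 / r) ^ g / (101 / 100 * r) ^ g) * (traceSet q g).ncard := by
      rw [div_mul_eq_mul_div, le_div_iff₀ h5, mul_comm]
      exact h4
    have h8 : ((g : ℝ) + 1) * Real.exp (δ * g) * ((98 / 100 / r) ^ g / (101 / 100 * r) ^ g) ≤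
        Real.exp (-(δ * g)) := by
      have h9 : ((g : ℝ) + 1) * (98 / 100 : ℝ) ^ g ≤ 1 := by
        have h10 : (0 : ℝ) < (98 / 100 : ℝ) ^ g := by positivity
        nlinarith [hG5 g g5]
      have h11 : Real.exp δ ^ 2 * (98 / 100 / r / (101 / 100 * r)) ≤ 98 / 100 := by
        rw [div_div, mul_div_assoc', div_le_iff₀ (by positivity)]
        have : Real.exp δ ^ 2 ≤ (1003 / 1000 * r) ^ 2 := pow_le_pow_left₀ hE0.le hE 2
        nlinarith [mul_pos hr0 hr0]
      have h12 : (Real.exp δ ^ 2 * (98 / 100 / r / (101 / 100 * r))) ^ g ≤ (98 / 100 : ℝ) ^ g :=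
        pow_le_pow_left₀ (by positivity) h11 g
      rw [hexpn, hexpg, le_inv_comm₀ (by positivity) (by positivity)]
      rw [le_inv_comm₀ (by positivity) (by positivity), ← one_div, le_div_iff₀ (by positivity)]
      calc ((g : ℝ) + 1) * Real.exp δ ^ g * ((98 / 100 / r) ^ g / (101 / 100 * r) ^ g) *
            Real.exp δ ^ g
          = ((g : ℝ) + 1) * (Real.exp δ ^ 2 * (98 / 100 / r / (101 / 100 * r))) ^ g := by
            rw [mul_pow (Real.exp δ ^ 2), div_pow (98 / 100 / r) (101 / 100 * r)]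
            ring
        _ ≤ ((g : ℝ) + 1) * (98 / 100 : ℝ) ^ g := mul_le_mul_of_nonneg_left h12 (by positivity)
        _ ≤ 1 := h9
    calc ((g : ℝ) + 1) * Real.exp (δ * g) * (preSet q g (g - 1)).ncard
        ≤ ((g : ℝ) + 1) * Real.exp (δ * g) *
          (((98 / 100 / r) ^ g / (101 / 100 * r) ^ g) * (traceSet q g).ncard) :=
          mul_le_mul_of_nonneg_left h6 (by positivity)
      _ = (((g : ℝ) + 1) * Real.exp (δ * g) * ((98 / 100 / r) ^ g / (101 / 100 * r) ^ g)) *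
          (traceSet q g).ncard := by ring
      _ ≤ Real.exp (-(δ * g)) * (traceSet q g).ncard := mul_le_mul_of_nonneg_right h8 hN0

end Pool.Agent.Helper86.XU
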