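import Pool.Agent.Helper19.XU.Tuples
import Pool.Agent.Helper86.XU.Big
import Pool.Agent.Helper94.XU.L4

/-!
# XU: the exceptional share, constants independent of `q`
-/

set_option autoImplicit false

open Polynomial

namespace Pool.Agent.Helper86.XU

open Pool.Agent.Helper84.AA
open Pool.Agent.Helper19.AAR (GoodR)

/-- L7: the assembly, with `k + B ≤ m^(4/5)`. -/
theorem almost_uniformU : ∃ d : ℝ, 0 < d ∧ ∃ c : ℝ, 0 < c ∧ ∃ G : ℕ, ∀ q : ℕ, 16 ≤ q →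
    ∀ p k : ℕ, p.Prime → ∀ m ≥ G, ∀ B : ℝ, 1 ≤ B → (k : ℝ) + B ≤ (m : ℝ) ^ (4 / 5 : ℝ) →
      ∀ g : Fin k → ℕ, (∀ i, m ≤ g i ∧ (g i : ℝ) ≤ (m : ℝ) ^ B) →
      (({h : Fin k → ℤ[X] | (∀ i, h i ∈ traceSet q (g i)) ∧ ¬ GoodR q h}.ncard : ℕ) : ℝ) ≤
        c * 4 ^ k * (q : ℝ) ^ (-(d * m / (k + B))) *
        (({h : Fin k → ℤ[X] | ∀ i, h i ∈ traceSet q (g i) ∧
          ¬ (p : ℤ) ∣ (h i).coeff 0}.ncard : ℕ) : ℝ) :=
  almost_uniformU_of (fun q _ => Pool.Agent.Helper19.AAE.pairB q)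
    (one_bigU_of res_boundU delta_boundU)

end Pool.Agent.Helper86.XU
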