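import Pool.Agent.Helper19.XU.Dim
import Pool.Agent.Helper19.AAE.PairB

/-!
# XU, L7: almost all tuples, constants independent of `q`
-/

set_option autoImplicit false

open Polynomial

namespace Pool.Agent.Helper86.XU

open Pool.Agent.Helper84.AA
open Pool.Agent.Helper86.XE (NiceO BigW)
open Pool.Agent.Helper19.AAT (FineAt tuple_ncard)
open Pool.Agent.Helper19.AAR (GoodR)
open Pool.Agent.Helper19.AAE (PairB exists_trim exists_large goodR_odd)

theorem OneBigU.mono {q : ℕ} {d d' : ℝ} {G : ℕ} (h : OneBigU q d G) (hd : d' ≤ d) :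
    OneBigU q d' G := by
  intro g hg K hK1 hK2 W h1 h2 u hu hD hM
  have hg0 : (0 : ℝ) ≤ g := Nat.cast_nonneg _
  have hle0 : d' * g ≤ d * g := mul_le_mul_of_nonneg_right hd hg0
  have hle : d' * g / K ≤ d * g / K := div_le_div_of_nonneg_right hle0 (by linarith)
  have h3 : {t ∈ Jset q g u | ¬ BigW q W (Real.exp (d' * g)) (X * u + C t)} ⊆
      {t ∈ Jset q g u | ¬ BigW q W (Real.exp (d * g)) (X * u + C t)} := by
    rintro t ⟨ht, hn⟩
    refine ⟨ht, fun ⟨L, hL, hY⟩ => hn ⟨L, hL, le_trans (Real.exp_le_exp.2 hle0) hY⟩⟩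
  have h4 := Set.ncard_le_ncard h3 ((Jset_finite q g u).subset fun t ht => ht.1)
  calc (({t ∈ Jset q g u | ¬ BigW q W (Real.exp (d' * g)) (X * u + C t)}.ncard : ℕ) : ℝ)
      ≤ (({t ∈ Jset q g u | ¬ BigW q W (Real.exp (d * g)) (X * u + C t)}.ncard : ℕ) : ℝ) := by
        exact_mod_cast h4
    _ ≤ Real.exp (-(d * g / K)) * (Jset q g u).ncard := h g hg K hK1 hK2 W h1 h2 u hu hD hM
    _ ≤ Real.exp (-(d' * g / K)) * (Jset q g u).ncard :=
        mul_le_mul_of_nonneg_right (Real.exp_le_exp.2 (neg_le_neg hle)) (Nat.cast_nonneg _)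

/-- The counting of the tuples, constants independent of `q`. -/
theorem almost_aux {d₀ : ℝ} (h0 : 0 < d₀) (h1 : d₀ ≤ 1 / 1000) (G₀ : ℕ) :
    ∃ G : ℕ, ∀ q : ℕ, 16 ≤ q → PairB q → OneBigU q (d₀ * Real.log q) G₀ →
      ∀ p : ℕ, p.Prime → ∀ (k m : ℕ), G ≤ m → ∀ B : ℝ, 1 ≤ B →
      (k : ℝ) + B ≤ (m : ℝ) ^ (4 / 5 : ℝ) →
      ∀ g : Fin k → ℕ, (∀ i, m ≤ g i ∧ (g i : ℝ) ≤ (m : ℝ) ^ B) →
      (({h : Fin k → ℤ[X] | (∀ i, h i ∈ traceSet q (g i)) ∧ ¬ GoodR q h}.ncard : ℕ) : ℝ) ≤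
        40 * 4 ^ k * Real.exp (-(d₀ * Real.log q * m / (8 * (k + B)))) *
        (({h : Fin k → ℤ[X] | ∀ i, h i ∈ traceSet q (g i) ∧
          ¬ (p : ℤ) ∣ (h i).coeff 0}.ncard : ℕ) : ℝ) := by
  classical
  obtain ⟨G, hG16, hG''⟩ := one_dimU h0 h1 G₀
  refine ⟨max G (8 ^ 10), fun q hq hP hO p hp k m hmm β hβ1 hβ2' g hgm => ?_⟩
  have hG' := hG'' q hq hO
  have hqR : (16 : ℝ) ≤ q := by exact_mod_cast hq
  have hlog0 : 0 < Real.log q := Real.log_pos (by linarith)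
  have hk00 : (0 : ℝ) ≤ (k : ℝ) := Nat.cast_nonneg _
  have hβ2 : β ≤ (m : ℝ) ^ (4 / 5 : ℝ) := by linarith
  set δ : ℝ := d₀ * Real.log q with hδd
  have hδ0 : 0 < δ := mul_pos h0 hlog0
  have hm : G ≤ m := (le_max_left _ _).trans hmm
  have hm2 : 8 ^ 10 ≤ m := (le_max_right _ _).trans hmm
  have hm16 : 16 ≤ m := hG16.trans hm
  have hmR : (16 : ℝ) ≤ m := by exact_mod_cast hm16
  have hm0 : (0 : ℝ) < m := by linarith
  have hm1 : (1 : ℝ) ≤ m := by linarith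
  have hk0 : (0 : ℝ) < (k : ℝ) + 1 := by positivity
  have hβ0 : 0 < β := by linarith
  -- the parameters
  set F : ℕ := ⌊(m : ℝ) ^ β⌋₊ with hF
  set W : ℕ := (F + 1) ^ 4 with hW
  set K : ℝ := 8 * β with hK
  have hK1 : 1 ≤ K := by rw [hK]; linarith
  set Y : ℝ := Real.exp (δ * m) with hYd
  set Y' : ℝ := Real.exp (δ * m / (k + 1)) with hY'd
  have hY1 : 1 < Y := by
    rw [hYd]
    exact Real.one_lt_exp_iff.2 (by positivity)
  have hY'1 : 1 ≤ Y' := by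
    rw [hY'd]
    exact Real.one_le_exp (by positivity)
  have hmβ : (m : ℝ) ≤ (m : ℝ) ^ β := by
    calc (m : ℝ) = (m : ℝ) ^ (1 : ℝ) := (Real.rpow_one _).symm
      _ ≤ (m : ℝ) ^ β := Real.rpow_le_rpow_of_exponent_le hm1 hβ1
  have hmF : m ≤ F := by
    rw [hF]
    exact Nat.le_floor hmβ
  have hg : ∀ i, G ≤ g i := fun i => le_trans hm (hgm i).1
  have hgF : ∀ i, g i ≤ F := fun i => by
    rw [hF]
    exact Nat.le_floor (hgm i).2
  have hgW : ∀ i, g i < W := fun i => by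
    have h1 : F + 1 ≤ (F + 1) ^ 4 := Nat.le_self_pow (by norm_num) _
    have h2 := hgF i
    omega
  have hgK : ∀ i, K ≤ (g i : ℝ) ^ (9 / 10 : ℝ) := by
    intro i
    have h1 : (m : ℝ) ≤ g i := by exact_mod_cast (hgm i).1
    have h8 : (8 : ℝ) ≤ (m : ℝ) ^ (1 / 10 : ℝ) := by
      have e1 : ((8 : ℝ) ^ (10 : ℕ)) ^ (1 / 10 : ℝ) = 8 := by
        rw [← Real.rpow_natCast, ← Real.rpow_mul (by norm_num)]
        norm_num
      rw [← e1]
      refine Real.rpow_le_rpow (by positivity) ?_ (by norm_num)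
      exact_mod_cast hm2
    calc K = 8 * β := hK
      _ ≤ (m : ℝ) ^ (1 / 10 : ℝ) * (m : ℝ) ^ (4 / 5 : ℝ) :=
          mul_le_mul h8 hβ2 hβ0.le (by positivity)
      _ = (m : ℝ) ^ (9 / 10 : ℝ) := by
          rw [← Real.rpow_add hm0]
          norm_num
      _ ≤ (g i : ℝ) ^ (9 / 10 : ℝ) := Real.rpow_le_rpow hm0.le h1 (by norm_num)
  have hWg : ∀ i, (W : ℝ) ≤ (g i : ℝ) ^ K := by
    intro i
    have h1 : (m : ℝ) ≤ g i := by exact_mod_cast (hgm i).1
    have h2 : ((F + 1 : ℕ) : ℝ) ≤ 2 * (m : ℝ) ^ β := by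
      have h3 : (F : ℝ) ≤ (m : ℝ) ^ β := Nat.floor_le (by positivity)
      push_cast
      linarith
    have h16 : (16 : ℝ) ≤ (m : ℝ) ^ (4 * β) := by
      calc (16 : ℝ) ≤ m := hmR
        _ = (m : ℝ) ^ (1 : ℝ) := (Real.rpow_one _).symm
        _ ≤ (m : ℝ) ^ (4 * β) := Real.rpow_le_rpow_of_exponent_le hm1 (by linarith)
    have h4β : ((m : ℝ) ^ β) ^ 4 = (m : ℝ) ^ (4 * β) := by
      rw [← Real.rpow_natCast, ← Real.rpow_mul hm0.le]
      congr 1
      push_cast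
      ring
    calc (W : ℝ) = (((F + 1 : ℕ) : ℝ)) ^ 4 := by rw [hW]; push_cast; ring
      _ ≤ (2 * (m : ℝ) ^ β) ^ 4 := pow_le_pow_left₀ (Nat.cast_nonneg _) h2 4
      _ = 16 * (m : ℝ) ^ (4 * β) := by rw [mul_pow, h4β]; norm_num
      _ ≤ (m : ℝ) ^ (4 * β) * (m : ℝ) ^ (4 * β) := mul_le_mul_of_nonneg_right h16 (by positivity)
      _ = (m : ℝ) ^ K := by
          rw [← Real.rpow_add hm0, hK]
          congr 1
          ring
      _ ≤ (g i : ℝ) ^ K := Real.rpow_le_rpow hm0.le h1 (by linarith)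
  have hgW4 : ∀ i, (g i + 1) ^ 4 ≤ W := fun i => by
    rw [hW]
    exact Nat.pow_le_pow_left (by have := hgF i; omega) 4
  have hgW2 : ∀ i, (g i + 1) ^ 2 ≤ W := fun i =>
    (Nat.pow_le_pow_right (by omega) (by norm_num)).trans (hgW4 i)
  set ε : ℝ := Real.exp (-(δ * m / (8 * (k + β)))) with hεd
  have hε0 : 0 < ε := Real.exp_pos _
  have hKε : Real.exp (-(δ * m / K)) ≤ ε := by
    rw [hεd, hK]
    refine Real.exp_le_exp.2 (neg_le_neg ?_)
    refine div_le_div_of_nonneg_left (by positivity) (by positivity) ?_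
    nlinarith [mul_nonneg hβ0.le (Nat.cast_nonneg (α := ℝ) k)]
  have hδε : Real.exp (-(δ * m)) ≤ ε := by
    refine le_trans (Real.exp_le_exp.2 (neg_le_neg ?_)) hKε
    exact div_le_self (by positivity) hK1
  have hmgR : ∀ i, (m : ℝ) ≤ g i := fun i => by exact_mod_cast (hgm i).1
  have hG2 : 2 ≤ G := by omega
  let T : Fin k → Finset ℤ[X] := fun i => (traceSet_finite q (g i)).toFinset
  have hT : ∀ i h, h ∈ T i ↔ h ∈ traceSet q (g i) := fun i h => Set.Finite.mem_toFinset _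
  have hTc : ∀ i, (traceSet q (g i)).ncard = (T i).card := fun i =>
    Set.ncard_eq_toFinset_card _ (traceSet_finite q (g i))
  let BW : Fin k → ℤ[X] → Prop := fun i h => BigW q W (Real.exp (δ * g i)) h
  let B : Fin k → ℤ[X] → Prop := fun i h => ¬ (Irreducible h ∧ BW i h)
  -- the trimmed sets of primes
  have hex : ∀ i h, BW i h → ∃ L : Finset ℕ, (∀ l ∈ L, W < l ∧ NiceO q h l) ∧
      Y ≤ ∏ l ∈ L, (l : ℝ) ∧ (W : ℝ) ^ (L.card - 1) ≤ Y := by
    rintro i h ⟨L, hL, hY⟩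
    have hYg : Y ≤ ∏ l ∈ L, (l : ℝ) := by
      refine le_trans ?_ hY
      rw [hYd]
      exact Real.exp_le_exp.2 (mul_le_mul_of_nonneg_left (hmgR i) hδ0.le)
    obtain ⟨L', hL', h1, h2⟩ := exists_trim L W (fun l hl => (hL l hl).1) hY1.le hYg
    exact ⟨L', fun l hl => hL l (hL' hl), h1, h2⟩
  let ℓ : Fin k → ℤ[X] → Finset ℕ := fun i h => if hh : BW i h then (hex i h hh).choose else ∅
  have hℓ : ∀ i h, BW i h → (∀ l ∈ ℓ i h, W < l ∧ NiceO q h l) ∧
      Y ≤ ∏ l ∈ ℓ i h, (l : ℝ) ∧ (W : ℝ) ^ ((ℓ i h).card - 1) ≤ Y := by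
    intro i h hh
    have : ℓ i h = (hex i h hh).choose := dif_pos hh
    rw [this]
    exact (hex i h hh).choose_spec
  let D : Fin k → Fin k → ℤ[X] → ℤ[X] → Prop := fun i _ x y =>
    ∃ L' ⊆ ℓ i x, (∀ l ∈ L', ¬ FineAt q y l) ∧ Y' ≤ ∏ l ∈ L', (l : ℝ)
  have hsep : ∀ (i : Fin k) (Pr : ℤ[X] → Prop),
      {h ∈ traceSet q (g i) | Pr h} = {h | h ∈ T i ∧ Pr h} := by
    intro i Pr
    ext h
    exact and_congr_left fun _ => (hT i h).symm
  have hB : ∀ i, (({y | y ∈ T i ∧ B i y}.ncard : ℕ) : ℝ) ≤ (5 * ε) * (T i).card := by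
    intro i
    have h1 := (hG' p hp (g i) (hg i) K hK1 (hgK i) W (hgW i) (hWg i)).1
    rw [hsep, hTc] at h1
    refine h1.trans (mul_le_mul_of_nonneg_right ?_ (Nat.cast_nonneg _))
    have h2 : Real.exp (-(δ * g i / K)) ≤ ε := by
      refine le_trans (Real.exp_le_exp.2 (neg_le_neg ?_)) hKε
      exact div_le_div_of_nonneg_right (mul_le_mul_of_nonneg_left (hmgR i) hδ0.le) (by linarith)
    linarith
  have hD : ∀ i j, i ≠ j → ∀ x ∈ T i, ¬ B i x →
      (({y | y ∈ T j ∧ D i j x y}.ncard : ℕ) : ℝ) ≤ (5 * ε) * (T j).card := by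
    intro i j _ x _ hx
    have hbw : BW i x := (not_not.1 hx).2
    obtain ⟨hL1, hL2, hL3⟩ := hℓ i x hbw
    set L := ℓ i x with hLd
    have hgj : 16 ≤ g j := hG16.trans (hg j)
    have h1 := hP (g j) (by omega) W (hgW2 j) L
      (fun l hl => ⟨(hL1 l hl).2.1, (hL1 l hl).1⟩) Y' hY'1
    rw [hsep, hTc] at h1
    refine h1.trans ?_
    have h2 := (hG' p hp (g j) (hg j) K hK1 (hgK j) W (hgW j) (hWg j)).2.2
    rw [hTc] at h2
    have hc0 : (0 : ℝ) ≤ (T j).card := Nat.cast_nonneg _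
    set a := L.card with ha
    -- `a ≤ 1 + δ m`
    have hW3 : Real.exp 1 ≤ W := by
      have h3 : 3 ≤ W := by
        have := hgW j
        omega
      have h4 : (3 : ℝ) ≤ W := by exact_mod_cast h3
      have h5 := Real.exp_one_lt_d9
      linarith
    have ham : (a : ℝ) ≤ 1 + δ * m := by
      have e1 : Real.exp 1 ^ (a - 1) ≤ Y := (pow_le_pow_left₀ (Real.exp_pos 1).le hW3 _).trans hL3
      rw [← Real.exp_nat_mul, mul_one, hYd, Real.exp_le_exp] at e1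
      have e4 : (a : ℝ) ≤ ((a - 1 : ℕ) : ℝ) + 1 := by
        have : a ≤ (a - 1) + 1 := by omega
        exact_mod_cast this
      linarith
    have hWm : (m : ℝ) ≤ (W : ℝ) ^ (1 / 4 : ℝ) := by
      have e1 : (W : ℝ) ^ (1 / 4 : ℝ) = F + 1 := by
        rw [hW]
        push_cast
        rw [← Real.rpow_natCast, ← Real.rpow_mul (by positivity)]
        norm_num
      rw [e1]
      have : (m : ℝ) ≤ F := by exact_mod_cast hmF
      linarith
    have hkm : (k : ℝ) + 1 ≤ m / 8 := by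
      have e1 : (8 : ℝ) ≤ (m : ℝ) ^ (1 / 5 : ℝ) := by
        have e2 : ((8 : ℝ) ^ (5 : ℕ)) ^ (1 / 5 : ℝ) = 8 := by
          rw [← Real.rpow_natCast, ← Real.rpow_mul (by norm_num)]
          norm_num
        rw [← e2]
        refine Real.rpow_le_rpow (by positivity) ?_ (by norm_num)
        have e3 : 8 ^ 5 ≤ m := le_trans (by norm_num) hm2
        exact_mod_cast e3
      have e4 : (m : ℝ) ^ (1 / 5 : ℝ) * (m : ℝ) ^ (4 / 5 : ℝ) = m := by
        rw [← Real.rpow_add hm0]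
        norm_num
      have e5 : (k : ℝ) + 1 ≤ (m : ℝ) ^ (4 / 5 : ℝ) := by linarith
      have e6 : 8 * ((k : ℝ) + 1) ≤ (m : ℝ) ^ (1 / 5 : ℝ) * (m : ℝ) ^ (4 / 5 : ℝ) :=
        mul_le_mul e1 e5 hk0.le (by positivity)
      rw [e4] at e6
      linarith
    have hE3 : Real.exp (a / (W : ℝ) ^ (1 / 4 : ℝ)) ≤ 3 * Real.exp δ := by
      have e1 : (a : ℝ) / (W : ℝ) ^ (1 / 4 : ℝ) ≤ 1 + δ := by
        rw [div_le_iff₀ (by positivity)]
        calc (a : ℝ) ≤ 1 + δ * m := ham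
          _ ≤ (1 + δ) * m := by nlinarith
          _ ≤ (1 + δ) * (W : ℝ) ^ (1 / 4 : ℝ) := mul_le_mul_of_nonneg_left hWm (by linarith)
      have e2 := Real.exp_le_exp.2 e1
      rw [Real.exp_add] at e2
      have e3 := Real.exp_one_lt_d9
      have e4 := Real.exp_pos δ
      nlinarith
    have hYE : Y' ^ (-(1 / 4) : ℝ) * Real.exp (a / (W : ℝ) ^ (1 / 4 : ℝ)) ≤ ε * 3 := by
      have e0 : Y' ^ (-(1 / 4) : ℝ) * Real.exp δ ≤ ε := by
        rw [hY'd, ← Real.exp_mul, ← Real.exp_add, hεd]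
        refine Real.exp_le_exp.2 ?_
        have e1 : δ * m / (k + 1) * -(1 / 4) = -(δ * m / (8 * (k + 1))) - δ * m / (8 * (k + 1)) := by
          field_simp
          ring
        have e2 : δ ≤ δ * m / (8 * (k + 1)) := by
          rw [le_div_iff₀ (by positivity)]
          exact mul_le_mul_of_nonneg_left (by linarith) hδ0.le
        have e3 : δ * m / (8 * (k + β)) ≤ δ * m / (8 * (k + 1)) :=
          div_le_div_of_nonneg_left (by positivity) (by positivity) (by linarith)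
        rw [e1]
        linarith
      calc Y' ^ (-(1 / 4) : ℝ) * Real.exp (a / (W : ℝ) ^ (1 / 4 : ℝ))
          ≤ Y' ^ (-(1 / 4) : ℝ) * (3 * Real.exp δ) :=
            mul_le_mul_of_nonneg_left hE3 (by positivity)
        _ = (Y' ^ (-(1 / 4) : ℝ) * Real.exp δ) * 3 := by ring
        _ ≤ ε * 3 := mul_le_mul_of_nonneg_right e0 (by norm_num)
    have t2 : (2 * ((g j : ℝ) + 1)) ^ a ≤ 2 * (((g j : ℝ) + 1) * Real.exp (δ * g j)) := by
      have e0 : (1 : ℝ) ≤ 2 * ((g j : ℝ) + 1) := by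
        have : (0 : ℝ) ≤ g j := Nat.cast_nonneg _
        linarith
      have e1 : (2 * ((g j : ℝ) + 1)) ^ a ≤ (2 * ((g j : ℝ) + 1)) * (2 * ((g j : ℝ) + 1)) ^ (a - 1) := by
        rcases Nat.eq_zero_or_pos a with h0 | h0
        · rw [h0]; simpa using e0
        · rw [← pow_succ', Nat.sub_add_cancel h0]
      have e2 : (2 * ((g j : ℝ) + 1)) ^ (a - 1) ≤ Real.exp (δ * g j) := by
        have e3 : 2 * ((g j : ℝ) + 1) ≤ W := by
          have e4 : 2 * (g j + 1) ≤ W := by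
            calc 2 * (g j + 1) ≤ (g j + 1) * (g j + 1) := Nat.mul_le_mul_right _ (by omega)
              _ = (g j + 1) ^ 2 := by ring
              _ ≤ W := hgW2 j
          exact_mod_cast e4
        refine (pow_le_pow_left₀ (by linarith) e3 _).trans (hL3.trans ?_)
        rw [hYd]
        refine Real.exp_le_exp.2 ?_
        exact mul_le_mul_of_nonneg_left (hmgR j) hδ0.le
      calc (2 * ((g j : ℝ) + 1)) ^ a
          ≤ (2 * ((g j : ℝ) + 1)) * (2 * ((g j : ℝ) + 1)) ^ (a - 1) := e1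
        _ ≤ (2 * ((g j : ℝ) + 1)) * Real.exp (δ * g j) := mul_le_mul_of_nonneg_left e2 (by linarith)
        _ = 2 * (((g j : ℝ) + 1) * Real.exp (δ * g j)) := by ring
    have hδgj : Real.exp (-(δ * g j)) ≤ ε := by
      refine le_trans (Real.exp_le_exp.2 (neg_le_neg ?_)) hδε
      exact mul_le_mul_of_nonneg_left (hmgR j) hδ0.le
    have hp0 : (0 : ℝ) ≤ (preSet q (g j) (g j - 1)).ncard := Nat.cast_nonneg _
    calc Y' ^ (-(1 / 4) : ℝ) * Real.exp (a / (W : ℝ) ^ (1 / 4 : ℝ)) * (T j).card +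
          (2 * ((g j : ℝ) + 1)) ^ a * (preSet q (g j) (g j - 1)).ncard
        ≤ ε * 3 * (T j).card + (2 * (((g j : ℝ) + 1) * Real.exp (δ * g j))) *
          (preSet q (g j) (g j - 1)).ncard :=
          add_le_add (mul_le_mul_of_nonneg_right hYE hc0)
            (mul_le_mul_of_nonneg_right t2 hp0)
      _ = 3 * ε * (T j).card + 2 * (((g j : ℝ) + 1) * Real.exp (δ * g j) *
          (preSet q (g j) (g j - 1)).ncard) := by ring
      _ ≤ 3 * ε * (T j).card + 2 * (ε * (T j).card) := by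
          have e1 : ((g j : ℝ) + 1) * Real.exp (δ * g j) * (preSet q (g j) (g j - 1)).ncard ≤
              ε * (T j).card := h2.trans (mul_le_mul_of_nonneg_right hδgj hc0)
          linarith
      _ = (5 * ε) * (T j).card := by ring
  have hmain := tuple_ncard T B D (ε := 5 * ε) (by positivity) hB hD
  -- the bad tuples
  have hbad : (({h : Fin k → ℤ[X] | (∀ i, h i ∈ traceSet q (g i)) ∧ ¬ GoodR q h}.ncard : ℕ) : ℝ) ≤
      (({x : Fin k → ℤ[X] | (∀ i, x i ∈ T i) ∧ ((∃ i, B i (x i)) ∨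
        ∃ i j, i ≠ j ∧ ¬ B i (x i) ∧ D i j (x i) (x j))}.ncard : ℕ) : ℝ) := by
    have h1 : {h : Fin k → ℤ[X] | (∀ i, h i ∈ traceSet q (g i)) ∧ ¬ GoodR q h} ⊆
        {x : Fin k → ℤ[X] | (∀ i, x i ∈ T i) ∧ ((∃ i, B i (x i)) ∨
          ∃ i j, i ≠ j ∧ ¬ B i (x i) ∧ D i j (x i) (x j))} := by
      rintro h ⟨hh, hbad⟩
      refine ⟨fun i => (hT i _).2 (hh i), ?_⟩
      by_contra hcon
      rw [not_or, not_exists] at hcon
      obtain ⟨hc1, hc2⟩ := hcon
      apply hbad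
      have hc1' : ∀ i, Irreducible (h i) ∧ BW i (h i) := fun i => not_not.1 (hc1 i)
      refine goodR_odd (by omega) h (fun i => (hh i).1) ?_ (fun i => (hc1' i).1) ?_
      · intro i
        rw [(hh i).2.1]
        exact hG2.trans (hg i)
      · intro i
        obtain ⟨hL1, hL2, _⟩ := hℓ i (h i) (hc1' i).2
        by_contra hcon
        push Not at hcon
        have h3 := exists_large (k := k) (ℓ i (h i)) (fun l hl => by
            have := (hL1 l hl).1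
            omega)
          (fun j l => ¬ FineAt q (h j) l) (fun j => j ≠ i)
          (fun l hl => by
            obtain ⟨j, hj, hf⟩ := hcon l (hL1 l hl).2
            exact ⟨j, hj, hf⟩) hY'1
          (fun j hj L' hL' hP => by
            by_contra hlt
            exact hc2 ⟨i, j, hj.symm, hc1 i, L', hL', hP, not_lt.1 hlt⟩)
        have h4 : Y' ^ k < Y := by
          rw [hY'd, ← Real.exp_nat_mul, hYd]
          refine Real.exp_lt_exp.2 ?_
          rw [mul_div_assoc', div_lt_iff₀ hk0]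
          have : 0 < δ * m := by positivity
          nlinarith
        linarith
    have hfin : {x : Fin k → ℤ[X] | (∀ i, x i ∈ T i) ∧ ((∃ i, B i (x i)) ∨
          ∃ i j, i ≠ j ∧ ¬ B i (x i) ∧ D i j (x i) (x j))}.Finite := by
      refine (Finset.finite_toSet (Fintype.piFinset T)).subset fun x hx => ?_
      rw [Finset.mem_coe, Fintype.mem_piFinset]
      exact hx.1
    exact_mod_cast Set.ncard_le_ncard h1 hfin
  -- the ordinary tuples
  let O : Fin k → ℝ := fun i => (({h ∈ traceSet q (g i) | ¬ (p : ℤ) ∣ h.coeff 0}.ncard : ℕ) : ℝ)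
  have hord : ((({h : Fin k → ℤ[X] | ∀ i, h i ∈ traceSet q (g i) ∧
      ¬ (p : ℤ) ∣ (h i).coeff 0}.ncard : ℕ)) : ℝ) = ∏ i, O i := by
    have hfO : ∀ i, {h ∈ traceSet q (g i) | ¬ (p : ℤ) ∣ h.coeff 0}.Finite := fun i =>
      (traceSet_finite q (g i)).subset fun h hh => hh.1
    have h1 : {h : Fin k → ℤ[X] | ∀ i, h i ∈ traceSet q (g i) ∧ ¬ (p : ℤ) ∣ (h i).coeff 0} =
        ↑(Fintype.piFinset fun i => (hfO i).toFinset) := by
      ext h
      rw [Finset.mem_coe, Fintype.mem_piFinset]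
      exact forall_congr' fun i => (Set.Finite.mem_toFinset (hfO i)).symm
    rw [h1, Set.ncard_coe_finset, Fintype.card_piFinset]
    push_cast
    refine Finset.prod_congr rfl fun i _ => ?_
    show _ = (({h ∈ traceSet q (g i) | ¬ (p : ℤ) ∣ h.coeff 0}.ncard : ℕ) : ℝ)
    rw [Set.ncard_eq_toFinset_card _ (hfO i)]
  have hprod : ∏ i, ((T i).card : ℝ) ≤ 3 ^ k * ∏ i, O i := by
    have h1 : ∀ i ∈ (Finset.univ : Finset (Fin k)), ((T i).card : ℝ) ≤ 3 * O i := by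
      intro i _
      have h2 := (hG' p hp (g i) (hg i) K hK1 (hgK i) W (hgW i) (hWg i)).2.1
      rwa [hTc] at h2
    refine (Finset.prod_le_prod (fun i _ => Nat.cast_nonneg _) h1).trans (le_of_eq ?_)
    rw [Finset.prod_mul_distrib, Finset.prod_const, Finset.card_univ, Fintype.card_fin]
  rw [hord]
  have hO0 : 0 ≤ ∏ i, O i := Finset.prod_nonneg fun i _ => Nat.cast_nonneg _
  calc (({h : Fin k → ℤ[X] | (∀ i, h i ∈ traceSet q (g i)) ∧ ¬ GoodR q h}.ncard : ℕ) : ℝ)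
      ≤ ((k : ℝ) + k * k) * (5 * ε) * ∏ i, ((T i).card : ℝ) := hbad.trans hmain
    _ ≤ ((k : ℝ) + k * k) * (5 * ε) * (3 ^ k * ∏ i, O i) :=
        mul_le_mul_of_nonneg_left hprod (by positivity)
    _ ≤ (8 * (4 / 3 : ℝ) ^ k) * (5 * ε) * (3 ^ k * ∏ i, O i) := by
        refine mul_le_mul_of_nonneg_right (mul_le_mul_of_nonneg_right
          (Pool.Agent.Helper19.AAP.pairs_le k) (by positivity)) (by positivity)
    _ = 40 * ((4 / 3 : ℝ) ^ k * 3 ^ k) * ε * ∏ i, O i := by ring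
    _ = 40 * 4 ^ k * ε * ∏ i, O i := by
        rw [← mul_pow]
        norm_num

/-- L7, from L5 and the bound for pairs. -/
theorem almost_uniformU_of (hP : ∀ q : ℕ, 16 ≤ q → PairB q)
    (hO : ∃ d₀ : ℝ, 0 < d₀ ∧ ∃ G : ℕ, ∀ q : ℕ, 16 ≤ q → OneBigU q (d₀ * Real.log q) G) :
    ∃ d : ℝ, 0 < d ∧ ∃ c : ℝ, 0 < c ∧ ∃ G : ℕ, ∀ q : ℕ, 16 ≤ q →
    ∀ p k : ℕ, p.Prime → ∀ m ≥ G, ∀ B : ℝ, 1 ≤ B → (k : ℝ) + B ≤ (m : ℝ) ^ (4 / 5 : ℝ) →
      ∀ g : Fin k → ℕ, (∀ i, m ≤ g i ∧ (g i : ℝ) ≤ (m : ℝ) ^ B) →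
      (({h : Fin k → ℤ[X] | (∀ i, h i ∈ traceSet q (g i)) ∧ ¬ GoodR q h}.ncard : ℕ) : ℝ) ≤
        c * 4 ^ k * (q : ℝ) ^ (-(d * m / (k + B))) *
        (({h : Fin k → ℤ[X] | ∀ i, h i ∈ traceSet q (g i) ∧
          ¬ (p : ℤ) ∣ (h i).coeff 0}.ncard : ℕ) : ℝ) := by
  obtain ⟨d, hd, G, hG⟩ := hO
  have hd0 : 0 < min d (1 / 1000) := lt_min hd (by norm_num)
  obtain ⟨G', h⟩ := almost_aux hd0 (min_le_right _ _) G
  refine ⟨min d (1 / 1000) / 8, by positivity, 40, by norm_num, G',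
    fun q hq p k hp m hm B hB1 hB2 g hg => ?_⟩
  have hqR : (16 : ℝ) ≤ q := by exact_mod_cast hq
  have hlog0 : 0 < Real.log q := Real.log_pos (by linarith)
  have hO' : OneBigU q (min d (1 / 1000) * Real.log q) G :=
    (hG q hq).mono (mul_le_mul_of_nonneg_right (min_le_left _ _) hlog0.le)
  refine (h q hq (hP q hq) hO' p hp k m hm B hB1 hB2 g hg).trans (le_of_eq ?_)
  have hB0 : 0 < (k : ℝ) + B := by
    have : (0 : ℝ) ≤ k := Nat.cast_nonneg _
    linarith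
  have e1 : (q : ℝ) ^ (-(min d (1 / 1000) / 8 * m / (k + B))) =
      Real.exp (-(min d (1 / 1000) * Real.log q * m / (8 * (k + B)))) := by
    rw [Real.rpow_def_of_pos (by linarith)]
    congr 1
    field_simp
  rw [e1]

end Pool.Agent.Helper86.XU
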